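import Pool.Agent.Helper20.Blk.KTau

set_option autoImplicit false

/-!
Blocking sets of finite point sets on `k` parallel lines and collinear triples at end points.
-/

namespace Pool.Agent.Results.MP_5dc6c6_co.EndTriples

/-- `e` is the first or the last point of `P` on its horizontal line -/
def IsEnd (P : Finset (ℝ × ℝ)) (e : ℝ × ℝ) : Prop :=
  (∀ p ∈ P, p.2 = e.2 → e.1 ≤ p.1) ∨ (∀ p ∈ P, p.2 = e.2 → p.1 ≤ e.1)

open Classical in
/-- the collinear triples `(e, p, q)` of points of `P` on three different horizontal lines such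
that `e` is an end point of its line and `p`, `q` are not, `p` being below `q` -/
noncomputable def triples (P : Finset (ℝ × ℝ)) : Finset ((ℝ × ℝ) × (ℝ × ℝ) × (ℝ × ℝ)) :=
  (P ×ˢ P ×ˢ P).filter (fun t => IsEnd P t.1 ∧ ¬ IsEnd P t.2.1 ∧ ¬ IsEnd P t.2.2 ∧
    t.2.1.2 < t.2.2.2 ∧ t.2.1.2 ≠ t.1.2 ∧ t.2.2.2 ≠ t.1.2 ∧
    Collinear ℝ ({t.1, t.2.1, t.2.2} : Set (ℝ × ℝ)))

/-- Let `P` be a finite set of points on `k ≥ 1` horizontal lines, each containing at least two
points of `P`. If `Q` is disjoint from `P` and every line through two points of `P` contains a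
point of `Q`, then `2 (k - 1) |P| ≤ 2 (k - 1) (|Q| + 2 k) + τ`, where `τ` is the number of
collinear triples of points of `P` on three different lines exactly one of which is an end point
of its line. -/
theorem result (k : ℕ) (hk : 1 ≤ k) (h : Fin k → ℝ) (hh : Function.Injective h)
    (P Q : Finset (ℝ × ℝ)) (hP : ∀ p ∈ P, ∃ i, p.2 = h i)
    (hne : ∀ i, ∃ p ∈ P, ∃ q ∈ P, p ≠ q ∧ p.2 = h i ∧ q.2 = h i) (hdisj : Disjoint P Q)
    (hblock : ∀ p ∈ P, ∀ q ∈ P, p ≠ q → ∃ x ∈ Q, x ∈ affineSpan ℝ ({p, q} : Set (ℝ × ℝ))) :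
    2 * (k - 1) * P.card ≤ 2 * (k - 1) * (Q.card + 2 * k) + (triples P).card := by
  haveI : Nonempty (Fin k) := ⟨⟨0, by omega⟩⟩
  have key := Blk.par_tau (I := Fin k) hh hP hne ⟨hdisj, hblock⟩
  rw [Fintype.card_fin] at key
  exact key

end Pool.Agent.Results.MP_5dc6c6_co.EndTriples
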