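import Mathlib
import Pool.Agent.Helper65.Blk.Plane

namespace Pool.Agent.Results.MP_5dc6c6_co.FewCollinear

open Finset Pool.Agent.Helper65.Blk

/-- An inequality for all blocking sets, and its consequences for point sets with at most k
points on a line. -/
theorem result (P B : Finset (ℝ × ℝ)) (hP : ¬ Collinear ℝ (P : Set (ℝ × ℝ)))
    (hPB : Disjoint P B)
    (hB : ∀ p ∈ P, ∀ q ∈ P, p ≠ q → ∃ x ∈ B, x ∈ affineSpan ℝ ({p, q} : Set (ℝ × ℝ))) :
    (6 + ∑ L ∈ spanned P, (3 * (L.card : ℤ) - 5) ≤ (P.card : ℤ) * B.card) ∧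
    ∀ k : ℕ, 2 ≤ k → (∀ L ⊆ P, Collinear ℝ (L : Set (ℝ × ℝ)) → L.card ≤ k) →
      (k ≤ 5 → 5 * ((P.card : ℤ) * (P.card - 1)) + 12 * k
          ≤ (k + 5) * ((P.card : ℤ) * B.card)) ∧
      (5 ≤ k → 4 * ((P.card : ℤ) * (P.card - 1)) + 9 * k + 3
          ≤ (k + 3) * ((P.card : ℤ) * B.card)) := by
  obtain ⟨h1, h2, h3, h4⟩ := summary hP hPB hB
  refine ⟨h1, fun k hk hL => ?_⟩
  have hr : ∀ L ∈ spanned P, (2 : ℤ) ≤ L.card ∧ (L.card : ℤ) ≤ k := by
    intro L hLs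
    constructor
    · obtain ⟨_, p, hp, q, hq, hpq, hall⟩ := mem_spanned.mp hLs
      have hpL : p ∈ L := (hall p hp).mpr (left_mem_affineSpan_pair _ _ _)
      have hqL : q ∈ L := (hall q hq).mpr (right_mem_affineSpan_pair _ _ _)
      have : 1 < L.card := one_lt_card.mpr ⟨p, hpL, q, hqL, hpq⟩
      exact_mod_cast this
    · exact_mod_cast hL L (mem_spanned.mp hLs).1 (collinear_of_spanned hLs)
  -- convexity
  have hconv : ∑ L ∈ spanned P, ((L.card : ℤ) * (L.card - 1))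
      ≤ ∑ L ∈ spanned P, (((k : ℤ) + 1) * L.card - 2 * k) := by
    apply sum_le_sum
    intro L hLs
    obtain ⟨ha, hb⟩ := hr L hLs
    nlinarith [mul_nonneg (sub_nonneg.mpr ha) (sub_nonneg.mpr hb)]
  rw [h4] at hconv
  rw [sum_sub_distrib, sum_const, nsmul_eq_mul, ← mul_sum] at hconv
  rw [sum_sub_distrib, sum_const, nsmul_eq_mul, ← mul_sum] at h1
  rw [sum_sub_distrib, sum_const, nsmul_eq_mul] at h2
  set s : ℤ := ∑ L ∈ spanned P, (L.card : ℤ) with hs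
  set v : ℤ := ((spanned P).card : ℤ) with hv
  set nb : ℤ := (P.card : ℤ) * B.card with hnb
  have hk' : (2 : ℤ) ≤ k := by exact_mod_cast hk
  constructor
  · intro hk5
    have hk5' : (k : ℤ) ≤ 5 := by exact_mod_cast hk5
    nlinarith [mul_nonneg (sub_nonneg.mpr hk5') (sub_nonneg.mpr h3),
      mul_nonneg (show (0 : ℤ) ≤ 2 * k by linarith) (sub_nonneg.mpr h1)]
  · intro hk5
    have hk5' : (5 : ℤ) ≤ k := by exact_mod_cast hk5
    nlinarith [mul_nonneg (sub_nonneg.mpr hk5') (sub_nonneg.mpr h2),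
      mul_nonneg (show (0 : ℤ) ≤ k + 3 by linarith) (sub_nonneg.mpr h1)]

end Pool.Agent.Results.MP_5dc6c6_co.FewCollinear
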