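import Pool.Agent.Helper20.Blk.Lines

set_option autoImplicit false

/-!
Blocking sets of finite point sets that lie on `k` parallel or concurrent lines.
-/

namespace Pool.Agent.Results.MP_5dc6c6_co.FewLines

/-- the line through the point `b` in the direction `u` -/
def line (b u : ℝ × ℝ) : Set (ℝ × ℝ) := {x | ∃ t : ℝ, x = b + t • u}

/-- Let `P` be a finite set of points of the plane that lies on `k ≥ 2` different lines, which are
all parallel or all pass through a common point outside `P`, each of the lines containing a point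
of `P`. If `Q` is disjoint from `P` and every line through two points of `P` contains a point of
`Q`, then `(k - 1) |Q| ≥ (1 + 1/2 + ... + 1/(k-1)) (|P| - 2 k)`. -/
theorem result (k : ℕ) (hk : 2 ≤ k) (b u : Fin k → ℝ × ℝ) (hu : ∀ i, u i ≠ 0)
    (hdist : ∀ i j, i ≠ j → line (b i) (u i) ≠ line (b j) (u j)) (P Q : Finset (ℝ × ℝ))
    (hpencil : (∀ i j, ∃ s : ℝ, u j = s • u i) ∨ (∃ c, c ∉ P ∧ ∀ i, c ∈ line (b i) (u i)))
    (hP : ∀ p ∈ P, ∃ i, p ∈ line (b i) (u i)) (hne : ∀ i, ∃ p ∈ P, p ∈ line (b i) (u i))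
    (hdisj : Disjoint P Q)
    (hblock : ∀ p ∈ P, ∀ q ∈ P, p ≠ q → ∃ x ∈ Q, x ∈ affineSpan ℝ ({p, q} : Set (ℝ × ℝ))) :
    (∑ r ∈ Finset.range (k - 1), (1 : ℝ) / (r + 1)) * ((P.card : ℝ) - 2 * k) ≤
      ((k : ℝ) - 1) * (Q.card : ℝ) := by
  have hk1 : ((k - 1 : ℕ) : ℝ) = (k : ℝ) - 1 := by
    rw [Nat.cast_sub (by omega)]; norm_num
  rw [← hk1]
  rcases hpencil with h | ⟨c, hc, h⟩
  · exact Blk.lines_par hk b u hu hdist h hP hne ⟨hdisj, hblock⟩
  · exact Blk.lines_conc hk b u hu hdist hc h hP hne ⟨hdisj, hblock⟩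

end Pool.Agent.Results.MP_5dc6c6_co.FewLines
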