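import Pool.Agent.Helper20.Blk.Pencil3

set_option autoImplicit false

/-!
The surplus is bounded for three regular rows on parallel or concurrent lines.
-/

namespace Pool.Agent.Results.MP_5dc6c6_co.RegularRows

/-- the affine function `l.1 x + l.2.1 y + l.2.2` -/
def ev (l : ℝ × ℝ × ℝ) (p : ℝ × ℝ) : ℝ := l.1 * p.1 + l.2.1 * p.2 + l.2.2

/-- the determinant of the coefficients of three affine functions -/
def det3 (l m n : ℝ × ℝ × ℝ) : ℝ :=
  l.1 * (m.2.1 * n.2.2 - m.2.2 * n.2.1) - l.2.1 * (m.1 * n.2.2 - m.2.2 * n.1) +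
    l.2.2 * (m.1 * n.2.1 - m.2.1 * n.1)

/-- any two elements of `S` are at distance at least `d`, and the first two and the last two
elements of `S` are at distance exactly `d` -/
def Regular (d : ℝ) (S : Set ℝ) : Prop :=
  (∀ x ∈ S, ∀ y ∈ S, x ≠ y → d ≤ |x - y|) ∧
  ∃ a b : ℝ, a ∈ S ∧ a + d ∈ S ∧ b ∈ S ∧ b - d ∈ S ∧ ∀ x ∈ S, a ≤ x ∧ x ≤ b

/-- Let `l 0 + l 1 + l 2 = 0` be equations of three parallel or concurrent lines and let `t` be a
third affine function, linearly independent of `l 0`, `l 1`. Let `P` be a finite set of points on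
these lines, outside their common point, such that on each line the projective coordinate
`t / l (i + 1)` of the points of `P` is a regular set with the same `d > 0`. If `Q` is disjoint
from `P` and every line through two points of `P` contains a point of `Q`, then
`|P| ≤ |Q| + 54`. -/
theorem result (l : Fin 3 → ℝ × ℝ × ℝ) (t : ℝ × ℝ × ℝ) (d : ℝ) (hd : 0 < d)
    (hsum : l 0 + l 1 + l 2 = 0) (hdet : det3 (l 0) (l 1) t ≠ 0) (P Q : Finset (ℝ × ℝ))
    (hP : ∀ p ∈ P, ∃ i, ev (l i) p = 0)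
    (h0 : ∀ p ∈ P, ∀ i, ev (l i) p = 0 → ev (l (i + 1)) p ≠ 0)
    (hR : ∀ i, Regular d {x | ∃ p ∈ P, ev (l i) p = 0 ∧ x = ev t p / ev (l (i + 1)) p})
    (hdisj : Disjoint P Q)
    (hblock : ∀ p ∈ P, ∀ q ∈ P, p ≠ q → ∃ x ∈ Q, x ∈ affineSpan ℝ ({p, q} : Set (ℝ × ℝ))) :
    P.card ≤ Q.card + 54 :=
  Blk.pencil_reg hd hsum hdet hP h0 hR ⟨hdisj, hblock⟩

end Pool.Agent.Results.MP_5dc6c6_co.RegularRows
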